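import Pool.Agent.Lib.MP_182bbb_co.TT.H5.Tree

/-!
# BRIDGE: from strict tight trees to coded 2-trees
-/

open Finset

namespace MP_182bbb_co.TT.H12

open MP_182bbb_co.H5 MP_182bbb_co.TT

universe u

section

variable {α : Type u} [DecidableEq α]

lemma strict_tight {H : Finset (Finset α)} (h : IsStrictTree H) : IsTightTree H := by
  obtain ⟨k, e, h1, h2, _, h4⟩ := h
  exact ⟨k + 1, e, h1, h2, fun i hi => (h4 i hi).2⟩

/-- The list of edges as a sequence. -/
lemma exists_seq {H : Finset (Finset α)} (h : IsStrictTree H) : ∃ E : ℕ → Finset α,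
    (range H.card).image E = H ∧ (∀ i < H.card, (E i).card = 3) ∧
    ∀ i, 0 < i → i < H.card → (E i ∩ (range i).biUnion E).card = 2 ∧
      ∃ j < i, E i ∩ (range i).biUnion E ⊆ E j := by
  obtain ⟨k, e, h1, h2, h3, h4⟩ := h
  have hc : H.card = k + 1 := by
    rw [← h2, card_image_of_injective _ h1, card_univ, Fintype.card_fin]
  rw [hc]
  set E : ℕ → Finset α := fun i => if h : i < k + 1 then e ⟨i, h⟩ else ∅ with hE
  have hEe : ∀ i : Fin (k + 1), E i = e i := by
    intro i
    simp only [hE]
    rw [dif_pos i.2]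
  have hU : ∀ i : Fin (k + 1), (range (i : ℕ)).biUnion E = (Finset.Iio i).biUnion e := by
    intro i
    ext x
    simp only [mem_biUnion, mem_range, mem_Iio]
    constructor
    · rintro ⟨j, hj, hx⟩
      refine ⟨⟨j, by have := i.2; omega⟩, hj, ?_⟩
      rw [← hEe]
      exact hx
    · rintro ⟨j, hj, hx⟩
      refine ⟨j, hj, ?_⟩
      rw [hEe]
      exact hx
  refine ⟨E, ?_, ?_, ?_⟩
  · rw [← h2]
    ext s
    simp only [mem_image, mem_range, mem_univ, true_and]
    constructor
    · rintro ⟨i, hi, rfl⟩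
      exact ⟨⟨i, hi⟩, (hEe ⟨i, hi⟩).symm⟩
    · rintro ⟨i, rfl⟩
      exact ⟨i, i.2, hEe i⟩
  · intro i hi
    have := hEe ⟨i, hi⟩
    dsimp only at this
    rw [this]
    exact h3 _
  · intro i hi0 hi
    have e1 := hEe ⟨i, hi⟩
    have e2 := hU ⟨i, hi⟩
    dsimp only at e1 e2
    obtain ⟨h5, j, hj, h6⟩ := h4 ⟨i, hi⟩ hi0
    rw [e1, e2]
    refine ⟨h5, j, hj, ?_⟩
    rw [hEe]
    exact h6

/-- The vertex with number `v`. -/
def nu (x y : α) (w : ℕ → α) : ℕ → α
  | 0 => x
  | 1 => y
  | (i + 2) => w i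

/-- The structure of a strict tight tree. -/
lemma exists_struct {N : ℕ} (hN : 2 ≤ N) {E : ℕ → Finset α} (h3 : ∀ i < N, (E i).card = 3)
    (h4 : ∀ i, 0 < i → i < N → (E i ∩ (range i).biUnion E).card = 2 ∧
      ∃ j < i, E i ∩ (range i).biUnion E ⊆ E j) :
    ∃ (x y : α) (w : ℕ → α) (Q : ℕ → Finset α), Q 0 = {x, y} ∧ Q 1 = {x, y} ∧
      (∀ i < N, E i = insert (w i) (Q i) ∧ w i ∉ Q i ∧ (Q i).card = 2) ∧
      (∀ i, 0 < i → i < N → ∃ j < i, Q i ⊆ E j) ∧
      Set.InjOn (nu x y w) (Set.Iic (N + 1)) := by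
  have h41 := h4 1 (by norm_num) (by omega)
  have hU1 : (range 1).biUnion E = E 0 := by
    rw [range_one, singleton_biUnion]
  rw [hU1] at h41
  obtain ⟨hc1, _⟩ := h41
  obtain ⟨x, y, hxy, hQ1⟩ := card_eq_two.mp hc1
  set Q : ℕ → Finset α := fun i => if i = 0 then {x, y} else E i ∩ (range i).biUnion E with hQ
  have hQ0 : Q 0 = {x, y} := by simp [hQ]
  have hQ1' : Q 1 = {x, y} := by
    simp only [hQ]
    rw [if_neg (by norm_num), hU1, hQ1]
  have hQp : ∀ i, 0 < i → Q i = E i ∩ (range i).biUnion E := fun i hi => by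
    simp only [hQ]
    rw [if_neg (by omega)]
  have hQc : ∀ i < N, (Q i).card = 2 := by
    intro i hi
    rcases Nat.eq_zero_or_pos i with rfl | hp
    · rw [hQ0, card_pair hxy]
    · rw [hQp i hp]
      exact (h4 i hp hi).1
  have hQE : ∀ i < N, Q i ⊆ E i := by
    intro i hi
    rcases Nat.eq_zero_or_pos i with rfl | hp
    · rw [hQ0, ← hQ1]
      exact inter_subset_right
    · rw [hQp i hp]
      exact inter_subset_left
  have hw : ∀ i, ∃ w, i < N → (E i = insert w (Q i) ∧ w ∉ Q i) := by
    intro i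
    by_cases hi : i < N
    · have h5 : (E i \ Q i).card = 1 := by
        rw [card_sdiff_of_subset (hQE i hi), h3 i hi, hQc i hi]
      obtain ⟨w, hw⟩ := card_eq_one.mp h5
      refine ⟨w, fun _ => ⟨?_, ?_⟩⟩
      · rw [← sdiff_union_of_subset (hQE i hi), hw]
        rfl
      · have : w ∈ E i \ Q i := by rw [hw]; simp
        exact (mem_sdiff.mp this).2
    · exact ⟨x, fun h => absurd h hi⟩
  choose w hw using hw
  have hwE : ∀ i < N, w i ∈ E i := fun i hi => by
    rw [(hw i hi).1]; exact mem_insert_self _ _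
  have hxE : x ∈ E 0 ∧ y ∈ E 0 := by
    have h5 := hQE 0 (by omega)
    rw [hQ0] at h5
    exact ⟨h5 (by simp), h5 (by simp)⟩
  -- new vertices are new
  have hnew : ∀ i, 0 < i → i < N → ∀ j < i, w i ∉ E j := by
    intro i hp hi j hj hm
    refine (hw i hi).2 ?_
    rw [hQp i hp, mem_inter, mem_biUnion]
    exact ⟨hwE i hi, j, mem_range.mpr hj, hm⟩
  have hwx : ∀ i < N, w i ≠ x ∧ w i ≠ y := by
    intro i hi
    rcases Nat.eq_zero_or_pos i with rfl | hp
    · have h5 := (hw 0 hi).2
      rw [hQ0] at h5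
      simp only [mem_insert, mem_singleton, not_or] at h5
      exact h5
    · exact ⟨fun h => hnew i hp hi 0 hp (h ▸ hxE.1), fun h => hnew i hp hi 0 hp (h ▸ hxE.2)⟩
  have hww : ∀ i j, i < N → j < i → w i ≠ w j := by
    intro i j hi hj h
    exact hnew i (by omega) hi j hj (h ▸ hwE j (by omega))
  refine ⟨x, y, w, Q, hQ0, hQ1', fun i hi => ⟨(hw i hi).1, (hw i hi).2, hQc i hi⟩, ?_, ?_⟩
  · intro i hp hi
    obtain ⟨j, hj, h5⟩ := (h4 i hp hi).2
    exact ⟨j, hj, by rw [hQp i hp]; exact h5⟩
  · have key : ∀ a c, a < c → c ≤ N + 1 → nu x y w a ≠ nu x y w c := by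
      intro a c hac hc
      rcases c with _ | _ | c
      · omega
      · have : a = 0 := by omega
        subst this
        exact hxy
      · rcases a with _ | _ | a
        · exact (hwx c (by omega)).1.symm
        · exact (hwx c (by omega)).2.symm
        · exact (hww c a (by omega) (by omega)).symm
    intro a ha c hc hac
    rw [Set.mem_Iic] at ha hc
    rcases lt_trichotomy a c with h | h | h
    · exact absurd hac (key a c h hc)
    · exact h
    · exact absurd hac.symm (key c a h ha)

lemma ends_congr {b b' : ℕ → ℕ} {m : ℕ} (h : ∀ j < m, b j = b' j) :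
    ∀ e ≤ 2 * m, ends b e = ends b' e := by
  intro e
  induction e using Nat.strong_induction_on with
  | _ e ih =>
    intro he
    rcases Nat.eq_zero_or_pos e with rfl | hp
    · simp
    · obtain ⟨i, hi⟩ : ∃ i, e = 2 * i + 1 ∨ e = 2 * i + 2 := ⟨(e - 1) / 2, by omega⟩
      have hb : bs b i = bs b' i := by
        unfold bs
        rw [h i (by omega)]
      have hle := bs_le b i
      have h5 := ih (bs b i) (by omega) (by omega)
      rcases hi with rfl | rfl
      · rw [ends_odd, ends_odd]
        unfold pA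
        rw [← hb, h5]
      · rw [ends_even, ends_even]
        unfold pB
        rw [← hb, h5]

/-- The pair with number `e`. -/
def pr (ν : ℕ → α) (b : ℕ → ℕ) (e : ℕ) : Finset α := {ν (ends b e).1, ν (ends b e).2}

/-- The code of a strict tight tree. -/
lemma exists_code {N : ℕ} (hN : 2 ≤ N) {E Q : ℕ → Finset α} {x y : α} {w : ℕ → α}
    (hQ0 : Q 0 = {x, y}) (hQ1 : Q 1 = {x, y})
    (hE : ∀ i < N, E i = insert (w i) (Q i) ∧ w i ∉ Q i ∧ (Q i).card = 2)
    (hj : ∀ i, 0 < i → i < N → ∃ j < i, Q i ⊆ E j) :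
    ∃ b : ℕ → ℕ, b 1 = 0 ∧ ∀ i < N, pr (nu x y w) b (bs b i) = Q i := by
  have key : ∀ m, 2 ≤ m → m ≤ N → ∃ b : ℕ → ℕ, b 1 = 0 ∧
      ∀ i < m, pr (nu x y w) b (bs b i) = Q i := by
    intro m hm
    induction m, hm using Nat.le_induction with
    | base =>
      intro _
      refine ⟨fun _ => 0, rfl, fun i hi => ?_⟩
      have hb : bs (fun _ => 0) i = 0 := by simp [bs]
      rw [hb]
      have h5 : pr (nu x y w) (fun _ => 0) 0 = {x, y} := by
        unfold pr
        rw [ends_zero]
        rfl
      rw [h5]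
      rcases (by omega : i = 0 ∨ i = 1) with rfl | rfl
      · exact hQ0.symm
      · exact hQ1.symm
    | succ m hm ih =>
      intro hmN
      obtain ⟨b, hb1, hb⟩ := ih (by omega)
      obtain ⟨j, hjm, hQj⟩ := hj m (by omega) (by omega)
      -- the number of the base pair
      obtain ⟨f, hf, hfQ⟩ : ∃ f ≤ 2 * m, pr (nu x y w) b f = Q m := by
        have hEj := hE j (by omega)
        have hbj := hb j hjm
        have hQm := (hE m (by omega)).2.2
        have hle := bs_le b j
        have hQjm : Q j = {nu x y w (pA b j), nu x y w (pB b j)} := hbj.symm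
        set p := nu x y w (pA b j) with hp
        set q := nu x y w (pB b j) with hq
        rw [hEj.1, hQjm] at hQj
        have hc := hEj.2.2
        have hwn := hEj.2.1
        rw [hQjm] at hc hwn
        simp only [mem_insert, mem_singleton, not_or] at hwn
        have hpq : p ≠ q := by
          intro h
          rw [h] at hc
          simp at hc
        -- the missing vertex
        have h6 : (insert (w j) ({p, q} : Finset α) \ Q m).card = 1 := by
          rw [card_sdiff_of_subset hQj, hQm, card_insert_of_notMem (by simp [hwn]), hc]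
        obtain ⟨t, ht⟩ := card_eq_one.mp h6
        have ht1 : t ∈ insert (w j) ({p, q} : Finset α) \ Q m := by rw [ht]; simp
        have hQe : Q m = (insert (w j) ({p, q} : Finset α)).erase t := by
          rw [← sdiff_singleton_eq_erase, ← ht, Finset.sdiff_sdiff_eq_self hQj]
        have ht2 := (mem_sdiff.mp ht1).1
        simp only [mem_insert, mem_singleton] at ht2
        rcases ht2 with rfl | rfl | rfl
        · refine ⟨bs b j, by omega, ?_⟩
          rw [hQe, hbj, hQjm, erase_insert (by simp [hwn])]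
        · refine ⟨2 * j + 2, by omega, ?_⟩
          rw [hQe]
          unfold pr
          rw [ends_even]
          change ({w j, q} : Finset α) = _
          ext v
          simp only [mem_insert, mem_singleton, mem_erase]
          constructor
          · rintro (rfl | rfl)
            · exact ⟨hwn.1, Or.inl rfl⟩
            · exact ⟨hpq.symm, Or.inr (Or.inr rfl)⟩
          · rintro ⟨h1, h2 | h2 | h2⟩
            · exact Or.inl h2
            · exact absurd h2 h1
            · exact Or.inr h2
        · refine ⟨2 * j + 1, by omega, ?_⟩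
          rw [hQe]
          unfold pr
          rw [ends_odd]
          change ({w j, p} : Finset α) = _
          ext v
          simp only [mem_insert, mem_singleton, mem_erase]
          constructor
          · rintro (rfl | rfl)
            · exact ⟨hwn.2, Or.inl rfl⟩
            · exact ⟨hpq, Or.inr (Or.inl rfl)⟩
          · rintro ⟨h1, h2 | h2 | h2⟩
            · exact Or.inl h2
            · exact Or.inr h2
            · exact absurd h2 h1
      refine ⟨Function.update b m f, ?_, ?_⟩
      · rw [Function.update_of_ne (by omega)]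
        exact hb1
      · have hcg : ∀ e ≤ 2 * m, ends b e = ends (Function.update b m f) e :=
          ends_congr (fun j hj => by rw [Function.update_of_ne (by omega)])
        intro i hi
        rcases (by omega : i < m ∨ i = m) with h | rfl
        · have h7 : bs (Function.update b m f) i = bs b i := by
            unfold bs
            rw [Function.update_of_ne (by omega)]
          rw [h7, ← hb i h]
          unfold pr
          rw [hcg _ (by have := bs_le b i; omega)]
        · have h7 : bs (Function.update b i f) i = f := by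
            unfold bs
            rw [Function.update_self]
            omega
          rw [h7, ← hfQ]
          unfold pr
          rw [hcg _ hf]
  exact key N hN le_rfl

/-- The shadow in terms of the code. -/
lemma shadow_eq {N : ℕ} (hN : 1 ≤ N) {E Q : ℕ → Finset α} {x y : α} {w : ℕ → α}
    (hE : ∀ i < N, E i = insert (w i) (Q i) ∧ w i ∉ Q i ∧ (Q i).card = 2)
    {b : ℕ → ℕ} (hb : ∀ i < N, pr (nu x y w) b (bs b i) = Q i) :
    H5.shadow ((range N).image E) = (range (2 * N + 1)).image (pr (nu x y w) b) := by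
  -- the three pairs of a triangle
  have htri : ∀ i < N, ∀ s : Finset α, (∃ v ∈ E i, (E i).erase v = s) ↔
      (s = pr (nu x y w) b (bs b i) ∨ s = pr (nu x y w) b (2 * i + 1) ∨
        s = pr (nu x y w) b (2 * i + 2)) := by
    intro i hi s
    obtain ⟨h1, h2, h3⟩ := hE i hi
    have h4 : pr (nu x y w) b (bs b i) = {nu x y w (pA b i), nu x y w (pB b i)} := rfl
    have h5 : pr (nu x y w) b (2 * i + 1) = {w i, nu x y w (pA b i)} := by
      unfold pr
      rw [ends_odd]
      rfl
    have h6 : pr (nu x y w) b (2 * i + 2) = {w i, nu x y w (pB b i)} := by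
      unfold pr
      rw [ends_even]
      rfl
    have h7 : Q i = {nu x y w (pA b i), nu x y w (pB b i)} := (hb i hi).symm
    rw [h4, h5, h6, h1, h7]
    rw [h7] at h2 h3
    set p := nu x y w (pA b i)
    set q := nu x y w (pB b i)
    simp only [mem_insert, mem_singleton, not_or] at h2
    have hpq : p ≠ q := by
      intro h
      rw [h] at h3
      simp at h3
    have e1 : (insert (w i) ({p, q} : Finset α)).erase (w i) = {p, q} :=
      erase_insert (by simp [h2])
    have e2 : (insert (w i) ({p, q} : Finset α)).erase p = {w i, q} := by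
      ext v
      simp only [mem_insert, mem_singleton, mem_erase]
      constructor
      · rintro ⟨h1, h2 | h2 | h2⟩
        · exact Or.inl h2
        · exact absurd h2 h1
        · exact Or.inr h2
      · rintro (rfl | rfl)
        · exact ⟨h2.1, Or.inl rfl⟩
        · exact ⟨hpq.symm, Or.inr (Or.inr rfl)⟩
    have e3 : (insert (w i) ({p, q} : Finset α)).erase q = {w i, p} := by
      ext v
      simp only [mem_insert, mem_singleton, mem_erase]
      constructor
      · rintro ⟨h1, h2 | h2 | h2⟩
        · exact Or.inl h2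
        · exact Or.inr h2
        · exact absurd h2 h1
      · rintro (rfl | rfl)
        · exact ⟨h2.2, Or.inl rfl⟩
        · exact ⟨hpq, Or.inr (Or.inl rfl)⟩
    constructor
    · rintro ⟨v, hv, rfl⟩
      simp only [mem_insert, mem_singleton] at hv
      rcases hv with rfl | rfl | rfl
      · exact Or.inl e1
      · exact Or.inr (Or.inr e2)
      · exact Or.inr (Or.inl e3)
    · rintro (rfl | rfl | rfl)
      · exact ⟨w i, by simp, e1⟩
      · exact ⟨q, by simp, e3⟩
      · exact ⟨p, by simp, e2⟩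
  ext s
  unfold H5.shadow
  simp only [mem_biUnion, mem_image, mem_range]
  constructor
  · rintro ⟨_, ⟨i, hi, rfl⟩, v, hv, hs⟩
    have hle := bs_le b i
    rcases (htri i hi s).mp ⟨v, hv, hs⟩ with rfl | rfl | rfl
    · exact ⟨bs b i, by omega, rfl⟩
    · exact ⟨2 * i + 1, by omega, rfl⟩
    · exact ⟨2 * i + 2, by omega, rfl⟩
  · rintro ⟨e, he, rfl⟩
    obtain ⟨i, hi, hie⟩ : ∃ i < N, e = bs b i ∨ e = 2 * i + 1 ∨ e = 2 * i + 2 := by
      rcases Nat.eq_zero_or_pos e with rfl | hp
      · exact ⟨0, by omega, Or.inl (by unfold bs; omega)⟩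
      · exact ⟨(e - 1) / 2, by omega, by omega⟩
    refine ⟨E i, ⟨i, hi, rfl⟩, ?_⟩
    refine (htri i hi _).mpr ?_
    rcases hie with rfl | rfl | rfl
    · exact Or.inl rfl
    · exact Or.inr (Or.inl rfl)
    · exact Or.inr (Or.inr rfl)

lemma ends_le {b : ℕ → ℕ} {N e : ℕ} (he : e ≤ 2 * N) :
    (ends b e).1 ≤ N + 1 ∧ (ends b e).2 ≤ N + 1 := by
  have h := ends_aux b e
  omega

/-- Every vertex is an end of an edge. -/
lemma exists_end {b : ℕ → ℕ} {N : ℕ} (v : ℕ) (hv : v ≤ N + 1) :
    ∃ e ≤ 2 * N, isEnd b e v := by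
  rcases v with _ | _ | i
  · exact ⟨0, by omega, Or.inl (by rw [ends_zero])⟩
  · exact ⟨0, by omega, Or.inr (by rw [ends_zero])⟩
  · exact ⟨2 * i + 1, by omega, Or.inl (by rw [ends_odd])⟩

/-- Distinct edges have distinct pairs. -/
lemma pr_injOn {ν : ℕ → α} {b : ℕ → ℕ} {N : ℕ} (hν : Set.InjOn ν (Set.Iic (N + 1))) :
    Set.InjOn (pr ν b) (Set.Iic (2 * N)) := by
  intro e he f hf h
  rw [Set.mem_Iic] at he hf
  have hee := ends_le (b := b) he
  have hff := ends_le (b := b) hf
  unfold pr at h
  have key : ∀ v, v ≤ N + 1 → ν v ∈ ({ν (ends b e).1, ν (ends b e).2} : Finset α) →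
      isEnd b e v := by
    intro v hv hm
    simp only [mem_insert, mem_singleton] at hm
    rcases hm with hm | hm
    · exact Or.inl (hν (Set.mem_Iic.mpr hv) (Set.mem_Iic.mpr hee.1) hm)
    · exact Or.inr (hν (Set.mem_Iic.mpr hv) (Set.mem_Iic.mpr hee.2) hm)
  refine ends_inj b e f (key _ hff.1 ?_) (key _ hff.2 ?_)
  · rw [h]; simp
  · rw [h]; simp

/-- The vertices of the shadow. -/
lemma mem_verts_pr {ν : ℕ → α} {b : ℕ → ℕ} {N : ℕ} {a : α} :
    a ∈ verts ((range (2 * N + 1)).image (pr ν b)) ↔ ∃ v ≤ N + 1, ν v = a := by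
  rw [mem_verts]
  constructor
  · rintro ⟨s, hs, ha⟩
    obtain ⟨e, he, rfl⟩ := mem_image.mp hs
    have hee := ends_le (b := b) (N := N) (e := e) (by have := mem_range.mp he; omega)
    unfold pr at ha
    simp only [mem_insert, mem_singleton] at ha
    rcases ha with rfl | rfl
    · exact ⟨_, hee.1, rfl⟩
    · exact ⟨_, hee.2, rfl⟩
  · rintro ⟨v, hv, rfl⟩
    obtain ⟨e, he, hev⟩ := exists_end (b := b) v hv
    refine ⟨pr ν b e, mem_image_of_mem _ (mem_range.mpr (by omega)), ?_⟩
    unfold pr
    rcases hev with h | h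
    · rw [← h]; simp
    · rw [← h]; simp

/-- Copies of the expansion in terms of the code. -/
lemma copy_iff {ν : ℕ → α} {b : ℕ → ℕ} {N : ℕ} (hν : Set.InjOn ν (Set.Iic (N + 1)))
    (V : Type) [Fintype V] [DecidableEq V] (G : Finset (Finset V)) :
    ContainsCopy (expansion 1 ((range (2 * N + 1)).image (pr ν b))) G ↔ HasExp N b G := by
  have hp := pr_injOn (b := b) hν
  constructor
  · intro hc
    obtain ⟨g, h, hg, hh, hgh, hG⟩ := exists_of_containsCopy hc
    have hmem : ∀ e ≤ 2 * N, pr ν b e ∈ (range (2 * N + 1)).image (pr ν b) := fun e he =>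
      mem_image_of_mem _ (mem_range.mpr (by omega))
    have hvm : ∀ v ≤ N + 1, ν v ∈ verts ((range (2 * N + 1)).image (pr ν b)) := fun v hv =>
      mem_verts_pr.mpr ⟨v, hv, rfl⟩
    refine ⟨fun v => g (ν v), fun e => h (pr ν b e), ?_, ?_, ?_, ?_⟩
    · intro v hv v' hv' hvv
      exact hν hv hv' (hg (mem_coe.mpr (hvm v hv)) (mem_coe.mpr (hvm v' hv')) hvv)
    · intro e he f hf hef
      exact hp he hf (hh (mem_coe.mpr (hmem e he)) (mem_coe.mpr (hmem f hf)) hef)
    · intro v hv e he
      exact hgh _ (hvm v hv) _ (hmem e he)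
    · intro e he
      have h1 := hG _ (hmem e he)
      unfold pr at h1 ⊢
      rw [image_insert, image_singleton] at h1
      unfold lk
      simp only [mem_filter, mem_univ, true_and]
      rw [rot]
      exact h1
  · rintro ⟨φ, ξ, hφ, hξ, hne, hl⟩
    obtain ⟨iv, hiv⟩ : ∃ iv : α → ℕ, ∀ v ≤ N + 1, iv (ν v) = v := by
      refine ⟨fun a => Function.invFunOn ν (Set.Iic (N + 1)) a, fun v hv => ?_⟩
      exact hν.leftInvOn_invFunOn (Set.mem_Iic.mpr hv)
    obtain ⟨ie, hie⟩ : ∃ ie : Finset α → ℕ, ∀ e ≤ 2 * N, ie (pr ν b e) = e := by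
      refine ⟨fun s => Function.invFunOn (pr ν b) (Set.Iic (2 * N)) s, fun e he => ?_⟩
      exact hp.leftInvOn_invFunOn (Set.mem_Iic.mpr he)
    have hs : ∀ s ∈ (range (2 * N + 1)).image (pr ν b), ∃ e ≤ 2 * N, s = pr ν b e := by
      intro s hs
      obtain ⟨e, he, rfl⟩ := mem_image.mp hs
      exact ⟨e, by have := mem_range.mp he; omega, rfl⟩
    refine containsCopy_of (fun a => φ (iv a)) (fun s => ξ (ie s)) ?_ ?_ ?_ ?_
    · intro a ha a' ha' haa
      obtain ⟨v, hv, rfl⟩ := mem_verts_pr.mp (mem_coe.mp ha)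
      obtain ⟨v', hv', rfl⟩ := mem_verts_pr.mp (mem_coe.mp ha')
      dsimp only at haa
      rw [hiv v hv, hiv v' hv'] at haa
      rw [hφ (Set.mem_Iic.mpr hv) (Set.mem_Iic.mpr hv') haa]
    · intro s hs1 s' hs2 hss
      obtain ⟨e, he, rfl⟩ := hs s (mem_coe.mp hs1)
      obtain ⟨f, hf, rfl⟩ := hs s' (mem_coe.mp hs2)
      dsimp only at hss
      rw [hie e he, hie f hf] at hss
      rw [hξ (Set.mem_Iic.mpr he) (Set.mem_Iic.mpr hf) hss]
    · intro a ha s hs1
      obtain ⟨v, hv, rfl⟩ := mem_verts_pr.mp ha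
      obtain ⟨e, he, rfl⟩ := hs s hs1
      rw [hiv v hv, hie e he]
      exact hne v hv e he
    · intro s hs1
      obtain ⟨e, he, rfl⟩ := hs s hs1
      have hee := ends_le (b := b) he
      have h1 := hl e he
      unfold lk at h1
      simp only [mem_filter, mem_univ, true_and] at h1
      rw [rot] at h1
      rw [hie e he]
      unfold pr
      rw [image_insert, image_singleton, hiv _ hee.1, hiv _ hee.2]
      exact h1

end

/-- BRIDGE: from strict tight trees to coded 2-trees. -/
theorem bridge : BRIDGE_S.{u} := by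
  intro α _ H hH
  refine ⟨strict_tight hH, fun hN => ?_⟩
  obtain ⟨E, hEH, h3, h4⟩ := exists_seq hH
  obtain ⟨x, y, w, Q, hQ0, hQ1, hE, hj, hν⟩ := exists_struct hN h3 h4
  obtain ⟨b, hb1, hb⟩ := exists_code hN hQ0 hQ1 hE hj
  refine ⟨b, hb1, fun V _ _ G _ => ?_⟩
  rw [← copy_iff hν V G]
  conv_lhs => rw [← hEH]
  rw [shadow_eq (by omega) hE hb]

end MP_182bbb_co.TT.H12
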