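import Pool.Agent.Lib.MP_182bbb_co.TT.Iface

/-!
# GROW: many starts give a good placement
-/

open Finset

namespace MP_182bbb_co.TT.H12

open MP_182bbb_co.H5 MP_182bbb_co.TT

lemma ind_true {P : Prop} (h : P) : ind P = 1 := if_pos h
lemma ind_false {P : Prop} (h : ¬ P) : ind P = 0 := if_neg h

lemma ind_nonneg (P : Prop) : 0 ≤ ind P := by
  by_cases h : P
  · rw [ind_true h]; norm_num
  · rw [ind_false h]

lemma ind_le_one (P : Prop) : ind P ≤ 1 := by
  by_cases h : P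
  · rw [ind_true h]
  · rw [ind_false h]; norm_num

lemma ind_mono {P Q : Prop} (h : P → Q) : ind P ≤ ind Q := by
  by_cases hP : P
  · rw [ind_true hP, ind_true (h hP)]
  · rw [ind_false hP]; exact ind_nonneg Q

lemma ind_or_le (P Q : Prop) : ind (P ∨ Q) ≤ ind P + ind Q := by
  by_cases hP : P
  · rw [ind_true (Or.inl hP), ind_true hP]
    have := ind_nonneg Q
    linarith
  · by_cases hQ : Q
    · rw [ind_true (Or.inr hQ), ind_true hQ]
      have := ind_nonneg P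
      linarith
    · rw [ind_false (by tauto)]
      have := ind_nonneg P
      have := ind_nonneg Q
      linarith

/-- The windows `(D r, D (r+1)]` are disjoint. -/
lemma sum_window (D : ℕ → ℕ) (hD : ∀ r, D r ≤ D (r + 1)) (x m : ℕ) :
    ∑ r ∈ range m, ind (D r < x ∧ x ≤ D (r + 1)) ≤ ind (x ≤ D m) := by
  induction m with
  | zero => simpa using ind_nonneg _
  | succ m ih =>
    rw [sum_range_succ]
    by_cases h : x ≤ D m
    · rw [ind_true h] at ih
      rw [ind_true (h.trans (hD m)), ind_false (P := D m < x ∧ x ≤ D (m + 1)) (by omega)]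
      linarith
    · rw [ind_false h] at ih
      have := ind_mono (P := D m < x ∧ x ≤ D (m + 1)) (Q := x ≤ D (m + 1)) (fun h => h.2)
      linarith

section

variable {V : Type} [Fintype V] [DecidableEq V]

lemma lk_comm (A : Finset (Finset V)) (x y : V) : lk A x y = lk A y x := by
  unfold lk
  ext z
  simp only [mem_filter, mem_univ, true_and]
  rw [swap12]

lemma mem_lk {A : Finset (Finset V)} {x y z : V} : z ∈ lk A x y ↔ ({x, y, z} : Finset V) ∈ A := by
  simp [lk]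

lemma lk_rot1 {A : Finset (Finset V)} {x y z : V} (h : z ∈ lk A x y) : y ∈ lk A z x := by
  rw [mem_lk] at h ⊢
  rwa [rot] at h

lemma lk_rot2 {A : Finset (Finset V)} {x y z : V} (h : z ∈ lk A x y) : x ∈ lk A z y := by
  rw [lk_comm] at h
  exact lk_rot1 h

/-- `φ` agrees with the start on `S0`. -/
lemma Supp.eqS0 {A : Finset (Finset V)} {b : ℕ → ℕ} {in0 : ℕ → Prop} {m : ℕ} {φ0 φ : ℕ → V}
    (h : Supp A b in0 m φ0 φ) {v : ℕ} (hv : S0 in0 v) : φ v = φ0 v := by
  refine h.1 v (fun i _ hi0 hvi => ?_)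
  rcases hv with hv | ⟨j, hj, hv⟩
  · omega
  · have : j = i := by omega
    subst this
    exact hi0 hj

lemma not_E0_odd {in0 : ℕ → Prop} {i : ℕ} (hi : ¬ in0 i) : ¬ E0 in0 (2 * i + 1) := by
  rintro (h | ⟨j, hj, h | h⟩)
  · omega
  · have : j = i := by omega
    subst this
    exact hi hj
  · omega

lemma not_E0_even {in0 : ℕ → Prop} {i : ℕ} (hi : ¬ in0 i) : ¬ E0 in0 (2 * i + 2) := by
  rintro (h | ⟨j, hj, h | h⟩)
  · omega
  · omega
  · have : j = i := by omega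
    subst this
    exact hi hj

lemma Ls_A {A B : Finset (Finset V)} {X : ℕ → Prop} {b : ℕ → ℕ} {φ : ℕ → V} {e : ℕ}
    (h : ¬ X e) : Ls A B X b φ e = lk A (φ (ends b e).1) (φ (ends b e).2) := if_neg h

open Classical in
/-- The lists as a function of the ends. -/
noncomputable def Lfe (A B : Finset (Finset V)) (X : ℕ → Prop) (e : ℕ) (x y : V) : Finset V :=
  if X e then lk B x y else lk A x y

lemma Lfe_eq {A B : Finset (Finset V)} {X : ℕ → Prop} {b : ℕ → ℕ} {φ : ℕ → V} {e : ℕ} :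
    Lfe A B X e (φ (ends b e).1) (φ (ends b e).2) = Ls A B X b φ e := rfl

lemma Ls_congr {A B : Finset (Finset V)} {X : ℕ → Prop} {b : ℕ → ℕ} {φ φ' : ℕ → V} {e : ℕ}
    (h1 : φ (ends b e).1 = φ' (ends b e).1) (h2 : φ (ends b e).2 = φ' (ends b e).2) :
    Ls A B X b φ e = Ls A B X b φ' e := by
  rw [← Lfe_eq, ← Lfe_eq, h1, h2]

/-- The event of `NOC_S`. -/
def NocEv (N : ℕ) (b : ℕ → ℕ) (in0 : ℕ → Prop) (J : Finset ℕ) (A : Finset (Finset V))
    (R : Finset V) (φ : ℕ → V) : Prop :=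
  (Set.InjOn φ (Set.Iic (N + 1)) ∧ ∀ v ≤ N + 1, φ v ∉ R) ∨
    ∃ i < N, ¬ in0 i ∧ ∃ v, S0 in0 v ∧ v ∉ J ∧ ¬ isEnd b (top in0 b (bs b i)) v ∧
      (lk A (φ (pA b i)) (φ (pB b i))).card ≤ 3 * N + 3 ∧
      φ v ∈ lk A (φ (pA b i)) (φ (pB b i))

/-- window event for one edge -/
def EvW (A B : Finset (Finset V)) (X : ℕ → Prop) (b : ℕ → ℕ) (d D e : ℕ) (φ : ℕ → V) : Prop :=
  d < (Ls A B X b φ e).card ∧ (Ls A B X b φ e).card ≤ D

/-- a real triangle with three light pairs -/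
def EvL (A : Finset (Finset V)) (b : ℕ → ℕ) (d i : ℕ) (φ : ℕ → V) : Prop :=
  (lk A (φ (pA b i)) (φ (pB b i))).card ≤ d ∧ (lk A (φ (i + 2)) (φ (pA b i))).card ≤ d ∧
    (lk A (φ (i + 2)) (φ (pB b i))).card ≤ d

/-- accident of type 1 -/
def Ev1 (A : Finset (Finset V)) (b : ℕ → ℕ) (d e v : ℕ) (φ : ℕ → V) : Prop :=
  (lk A (φ (ends b e).1) (φ (ends b e).2)).card ≤ d ∧
    φ v ∈ lk A (φ (ends b e).1) (φ (ends b e).2)

/-- accident of type 3 -/
def Ev3 (A B : Finset (Finset V)) (X : ℕ → Prop) (b : ℕ → ℕ) (d D e i : ℕ) (φ : ℕ → V) : Prop :=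
  (Ls A B X b φ e).card ≤ d ∧ φ (i + 2) ∈ Ls A B X b φ e ∧
    D < (lk A (φ (pA b i)) (φ (pB b i))).card

/-- accident of type 4, first child -/
def Ev4 (A B : Finset (Finset V)) (X : ℕ → Prop) (b : ℕ → ℕ) (d D e i : ℕ) (φ : ℕ → V) : Prop :=
  (Ls A B X b φ e).card ≤ d ∧ φ (pB b i) ∈ Ls A B X b φ e ∧
    D < (lk A (φ (i + 2)) (φ (pA b i))).card

/-- accident of type 4, second child -/
def Ev4' (A B : Finset (Finset V)) (X : ℕ → Prop) (b : ℕ → ℕ) (d D e i : ℕ) (φ : ℕ → V) : Prop :=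
  (Ls A B X b φ e).card ≤ d ∧ φ (pA b i) ∈ Ls A B X b φ e ∧
    D < (lk A (φ (i + 2)) (φ (pB b i))).card

/-- Without bad events the placement is good. -/
lemma good_of (hR0 : ROOT0_S) {N s : ℕ} {b : ℕ → ℕ} {in0 : ℕ → Prop} {J : Finset ℕ}
    {X : ℕ → Prop} (hT : Tree0 N b in0 J X) {A B : Finset (Finset V)} {M : ℝ} {d0 : ℕ}
    {φ0 φ : ℕ → V} {R : Finset V} (hcore : IsCore s A)
    (hS : Start N b in0 J X A B M d0 φ0 R) (hφ : Supp A b in0 N φ0 φ) {d D : ℕ}
    (hd0 : d0 ≤ d) (hd3 : 3 * N + 3 ≤ d) (hdD : d ≤ D) (hM : 0 ≤ M)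
    (hn : M * (d : ℝ) < (Fintype.card V : ℝ))
    (hNC : NocEv N b in0 J A R φ)
    (hW : ∀ e ≤ 2 * N, ¬ EvW A B X b d D e φ)
    (hAL : ∀ i < N, ¬ in0 i → ¬ EvL A b d i φ)
    (hA1 : ∀ e ≤ 2 * N, ∀ v, S0 in0 v → v ∉ J → ¬ isEnd b (top in0 b e) v → ¬ Ev1 A b d e v φ)
    (hA3 : ∀ e ≤ 2 * N, ∀ i < N, ¬ in0 i → ¬ beh b e (2 * i + 1) → ¬ beh b e (2 * i + 2) →
      ¬ Ev3 A B X b d D e i φ)
    (hA4 : ∀ e ≤ 2 * N, ∀ i < N, ¬ in0 i → beh b e (2 * i + 1) → ¬ Ev4 A B X b d D e i φ)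
    (hA4' : ∀ e ≤ 2 * N, ∀ i < N, ¬ in0 i → beh b e (2 * i + 2) → ¬ Ev4' A B X b d D e i φ) :
    Good N s b in0 J X A B φ d R := by
  have hdown : ∀ j, in0 j → E0 in0 (bs b j) := fun j hj => hT.down j (hT.inN j hj) hj
  obtain ⟨r1, r2, _, _, _, _, _, _, _, r10, _, _, r13⟩ := hR0 b in0 hdown
  have hEq : ∀ e, E0 in0 e → φ (ends b e).1 = φ0 (ends b e).1 ∧
      φ (ends b e).2 = φ0 (ends b e).2 := fun e he =>
    ⟨Supp.eqS0 hφ (r1 e he).1, Supp.eqS0 hφ (r1 e he).2⟩
  have hLs : ∀ e, E0 in0 e → Ls A B X b φ e = Ls A B X b φ0 e := fun e he =>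
    Ls_congr (hEq e he).1 (hEq e he).2
  have hX1 : ∀ i, ¬ in0 i → ¬ X (2 * i + 1) := fun i hi hx => not_E0_odd hi (hT.xe _ hx).1
  have hX2 : ∀ i, ¬ in0 i → ¬ X (2 * i + 2) := fun i hi hx => not_E0_even hi (hT.xe _ hx).1
  have hL1 : ∀ i, ¬ in0 i → Ls A B X b φ (2 * i + 1) = lk A (φ (i + 2)) (φ (pA b i)) := by
    intro i hi
    rw [Ls_A (hX1 i hi), ends_odd]
  have hL2 : ∀ i, ¬ in0 i → Ls A B X b φ (2 * i + 2) = lk A (φ (i + 2)) (φ (pB b i)) := by
    intro i hi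
    rw [Ls_A (hX2 i hi), ends_even]
  have hLb : ∀ i < N, ¬ in0 i → Ls A B X b φ (bs b i) = lk A (φ (pA b i)) (φ (pB b i)) := by
    intro i hiN hi
    rw [Ls_A (hT.real i hiN hi)]
    rfl
  have hgap : ∀ e ≤ 2 * N, (Ls A B X b φ e).card ≤ d ∨ D < (Ls A B X b φ e).card := by
    intro e he
    by_contra h
    push Not at h
    exact hW e he h
  have hheavy : ∀ e ≤ 2 * N, E0 in0 e → hitJ b J e → d < (Ls A B X b φ e).card := by
    intro e he he0 hJ
    have hx : ¬ X e := fun hx => (hT.xe e hx).2 hJ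
    have h1 := hS.heavy e he0 hJ
    rw [Ls_A hx, (hEq e he0).1, (hEq e he0).2]
    by_contra hle
    push Not at hle
    have h2 : ((lk A (φ0 (ends b e).1) (φ0 (ends b e).2)).card : ℝ) ≤ (d : ℝ) := by
      exact_mod_cast hle
    have h3 := mul_le_mul_of_nonneg_left h2 hM
    linarith
  refine ⟨?_, ?_, ?_, ?_, ?_, ?_, ?_, ?_, ?_⟩
  · rcases hNC with h | ⟨i, hiN, hi, v, hv, hvJ, hve, hc, hm⟩
    · exact h.1
    · exact absurd ⟨hc.trans hd3, hm⟩ (hA1 (bs b i) (by have := bs_le b i; omega) v hv hvJ hve)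
  · rcases hNC with h | ⟨i, hiN, hi, v, hv, hvJ, hve, hc, hm⟩
    · exact h.2
    · exact absurd ⟨hc.trans hd3, hm⟩ (hA1 (bs b i) (by have := bs_le b i; omega) v hv hvJ hve)
  · intro e he hx
    rw [Ls_A hx]
    apply hcore
    by_cases he0 : E0 in0 e
    · rw [(hEq e he0).1, (hEq e he0).2]
      exact hS.ne e he0 hx
    · have hpos : e ≠ 0 := fun h => he0 (Or.inl h)
      rcases Nat.even_or_odd' e with ⟨m, hm | hm⟩
      · obtain ⟨i, rfl⟩ : ∃ i, m = i + 1 := ⟨m - 1, by omega⟩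
        have hi : ¬ in0 i := fun h => he0 (Or.inr ⟨i, h, Or.inr (by omega)⟩)
        have h1 := hφ.2 i (by omega) hi
        have h2 : e = 2 * i + 2 := by omega
        rw [h2, ends_even]
        exact ⟨_, lk_rot2 h1⟩
      · have hi : ¬ in0 m := fun h => he0 (Or.inr ⟨m, h, Or.inl hm⟩)
        have h1 := hφ.2 m (by omega) hi
        rw [hm, ends_odd]
        exact ⟨_, lk_rot1 h1⟩
  · intro e he
    rcases hgap e he with h | h
    · exact Or.inl h
    · exact Or.inr (by omega)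
  · intro e he he0 hJ
    rw [hLs e he0]
    exact (hS.light e he0 hJ).trans hd0
  · exact hheavy
  · intro i hiN hi
    rw [hL1 i hi, hL2 i hi, hLb i hiN hi]
    by_contra h
    push Not at h
    exact hAL i hiN hi h
  · intro e he hl i hiN hi hm
    by_contra hJ
    by_cases he0 : E0 in0 e
    · have hJe : ¬ hitJ b J e := fun h => absurd (hheavy e he he0 h) (by omega)
      have h1 := hS.acc e he0 hJe (nv b e i) (r2 e i hi).1 hJ (r13 e i)
      rw [hLs e he0, Supp.eqS0 hφ (r2 e i hi).1] at hm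
      exact h1 hm
    · have hx : ¬ X e := fun hx => he0 (hT.xe e hx).1
      rw [Ls_A hx] at hl hm
      have h2 : ¬ isEnd b (top in0 b e) (nv b e i) := by
        rw [(r10 e i hi).1]
        exact r13 _ i
      exact hA1 e he (nv b e i) (r2 e i hi).1 hJ h2 ⟨hl, hm⟩
  · intro e he hl i hiN hi hm
    by_contra hlt
    push Not at hlt
    by_cases h1 : beh b e (2 * i + 1)
    · have hn1 : nv b e i = pB b i := if_pos h1
      have hn2 : en b e i = 2 * i + 1 := if_pos h1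
      rw [hn1] at hm
      rw [hn2] at hlt
      rcases hgap (2 * i + 1) (by omega) with h | h
      · omega
      · rw [hL1 i hi] at h
        exact hA4 e he i hiN hi h1 ⟨hl, hm, h⟩
    · by_cases h2 : beh b e (2 * i + 2)
      · have hn1 : nv b e i = pA b i := by
          unfold nv
          rw [if_neg h1, if_pos h2]
        have hn2 : en b e i = 2 * i + 2 := by
          unfold en
          rw [if_neg h1, if_pos h2]
        rw [hn1] at hm
        rw [hn2] at hlt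
        rcases hgap (2 * i + 2) (by omega) with h | h
        · omega
        · rw [hL2 i hi] at h
          exact hA4' e he i hiN hi h2 ⟨hl, hm, h⟩
      · have hn1 : nv b e i = i + 2 := by
          unfold nv
          rw [if_neg h1, if_neg h2]
        have hn2 : en b e i = bs b i := by
          unfold en
          rw [if_neg h1, if_neg h2]
        rw [hn1] at hm
        rw [hn2] at hlt
        have hb := bs_le b i
        rcases hgap (bs b i) (by omega) with h | h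
        · omega
        · rw [hLb i hiN hi] at h
          exact hA3 e he i hiN hi h1 h2 ⟨hl, hm, h⟩

/-! ### Masses -/

/-- The mass of an event. -/
noncomputable def mass (N : ℕ) (b : ℕ → ℕ) (in0 : ℕ → Prop) (J : Finset ℕ)
    (A : Finset (Finset V)) (z : ℕ → V) (Ω : Finset (Fin (N + 2) → V)) (P : (ℕ → V) → Prop) : ℝ :=
  ∑ ω ∈ Ω, gr A b in0 N (fun φ => ind (P φ)) (ini N J z ω)

section

variable {N : ℕ} {b : ℕ → ℕ} {in0 : ℕ → Prop} {J : Finset ℕ} {A : Finset (Finset V)}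
  {z : ℕ → V} {Ω : Finset (Fin (N + 2) → V)}

lemma mass_mono (hG : GRB_S) {P Q : (ℕ → V) → Prop} (h : ∀ φ, P φ → Q φ) :
    mass N b in0 J A z Ω P ≤ mass N b in0 J A z Ω Q := by
  refine sum_le_sum (fun ω _ => ?_)
  exact (hG V A b in0).1 N _ _ _ (fun φ _ => ind_mono (h φ))

lemma mass_or (hG : GRB_S) (P Q : (ℕ → V) → Prop) :
    mass N b in0 J A z Ω (fun φ => P φ ∨ Q φ) ≤
      mass N b in0 J A z Ω P + mass N b in0 J A z Ω Q := by
  unfold mass
  rw [← sum_add_distrib]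
  refine sum_le_sum (fun ω _ => ?_)
  rw [← (hG V A b in0).2.1]
  exact (hG V A b in0).1 N _ _ _ (fun φ _ => ind_or_le _ _)

lemma mass_false (hG : GRB_S) {P : (ℕ → V) → Prop} (h : ∀ φ, ¬ P φ) :
    mass N b in0 J A z Ω P = 0 := by
  unfold mass
  refine sum_eq_zero (fun ω _ => ?_)
  have h1 : (fun φ : ℕ → V => ind (P φ)) = fun _ => (0 : ℝ) := by
    funext φ
    exact ind_false (h φ)
  rw [h1]
  have h2 := ((hG V A b in0).2.2.2.1 N 0 (ini N J z ω) le_rfl)
  exact le_antisymm h2.2 h2.1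

lemma mass_exists (hG : GRB_S) (s : Finset ℕ) (P : ℕ → (ℕ → V) → Prop) (K : ℝ)
    (h : ∀ i ∈ s, mass N b in0 J A z Ω (P i) ≤ K) :
    mass N b in0 J A z Ω (fun φ => ∃ i ∈ s, P i φ) ≤ s.card * K := by
  classical
  induction s using Finset.induction_on with
  | empty =>
    rw [mass_false hG (by simp)]
    simp
  | insert i s hi ih =>
    rw [card_insert_of_notMem hi]
    have h1 := ih (fun j hj => h j (mem_insert_of_mem hj))
    have h2 := h i (mem_insert_self i s)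
    have h3 := mass_or (N := N) (b := b) (in0 := in0) (J := J) (A := A) (z := z) (Ω := Ω) hG
      (P i) (fun φ => ∃ i ∈ s, P i φ)
    have h4 := mass_mono (N := N) (b := b) (in0 := in0) (J := J) (A := A) (z := z) (Ω := Ω) hG
      (P := fun φ => ∃ j ∈ insert i s, P j φ) (Q := fun φ => P i φ ∨ ∃ i ∈ s, P i φ) (by
        rintro φ ⟨j, hj, hP⟩
        rcases mem_insert.mp hj with rfl | hj
        · exact Or.inl hP
        · exact Or.inr ⟨j, hj, hP⟩)
    push_cast
    linarith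

omit [DecidableEq V] in
lemma card_Omega : ((Ω.card : ℕ) : ℝ) ≤ (Fintype.card V : ℝ) ^ (N + 2) := by
  have h : Ω.card ≤ Fintype.card (Fin (N + 2) → V) := card_le_univ Ω
  rw [Fintype.card_fun, Fintype.card_fin] at h
  exact_mod_cast h

/-- the windows: total mass at most `2N + 1` times the maximum. -/
lemma mass_window (hG : GRB_S) (B : Finset (Finset V)) (X : ℕ → Prop) (D : ℕ → ℕ)
    (hD : ∀ r, D r ≤ D (r + 1)) (m : ℕ) :
    ∑ r ∈ range m, mass N b in0 J A z Ω (fun φ => ∃ e ∈ range (2 * N + 1),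
      EvW A B X b (D r) (D (r + 1)) e φ) ≤ (2 * N + 1) * (Fintype.card V : ℝ) ^ (N + 2) := by
  classical
  -- sum of expectations
  have hsum : ∀ (s : Finset ℕ) (F : ℕ → (ℕ → V) → ℝ) (φ0 : ℕ → V),
      ∑ r ∈ s, gr A b in0 N (F r) φ0 = gr A b in0 N (fun φ => ∑ r ∈ s, F r φ) φ0 := by
    intro s F φ0
    induction s using Finset.induction_on with
    | empty =>
      simp only [sum_empty]
      have h2 := ((hG V A b in0).2.2.2.1 N 0 φ0 le_rfl)
      exact le_antisymm h2.1 h2.2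
    | insert i s hi ih =>
      rw [sum_insert hi, ih, ← (hG V A b in0).2.1]
      congr 1
      funext φ
      rw [sum_insert hi]
  have h1 : ∑ r ∈ range m, mass N b in0 J A z Ω (fun φ => ∃ e ∈ range (2 * N + 1),
      EvW A B X b (D r) (D (r + 1)) e φ) = ∑ ω ∈ Ω, gr A b in0 N (fun φ => ∑ r ∈ range m,
        ind (∃ e ∈ range (2 * N + 1), EvW A B X b (D r) (D (r + 1)) e φ)) (ini N J z ω) := by
    unfold mass
    rw [sum_comm]
    exact sum_congr rfl (fun ω _ => hsum _ _ _)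
  rw [h1]
  have h2 : ∀ ω ∈ Ω, gr A b in0 N (fun φ => ∑ r ∈ range m,
        ind (∃ e ∈ range (2 * N + 1), EvW A B X b (D r) (D (r + 1)) e φ)) (ini N J z ω) ≤
        (2 * N + 1 : ℝ) := by
    intro ω _
    have h3 := (hG V A b in0).1 N (fun φ => ∑ r ∈ range m,
        ind (∃ e ∈ range (2 * N + 1), EvW A B X b (D r) (D (r + 1)) e φ)) (fun _ => (2 * N + 1 : ℝ))
        (ini N J z ω) (fun φ _ => by
          show ∑ r ∈ range m, ind (∃ e ∈ range (2 * N + 1), EvW A B X b (D r) (D (r + 1)) e φ) ≤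
            (2 * N + 1 : ℝ)
          have h4 : ∀ r ∈ range m, ind (∃ e ∈ range (2 * N + 1),
              EvW A B X b (D r) (D (r + 1)) e φ) ≤
              ∑ e ∈ range (2 * N + 1), ind (EvW A B X b (D r) (D (r + 1)) e φ) := by
            intro r _
            by_cases hex : ∃ e ∈ range (2 * N + 1), EvW A B X b (D r) (D (r + 1)) e φ
            · rw [ind_true hex]
              obtain ⟨e, he, hE⟩ := hex
              rw [← ind_true hE]
              exact single_le_sum (f := fun e => ind (EvW A B X b (D r) (D (r + 1)) e φ))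
                (fun e _ => ind_nonneg _) he
            · rw [ind_false hex]
              exact sum_nonneg (fun e _ => ind_nonneg _)
          refine (sum_le_sum h4).trans ?_
          rw [sum_comm]
          have h5 : ∀ e ∈ range (2 * N + 1), ∑ r ∈ range m,
              ind (EvW A B X b (D r) (D (r + 1)) e φ) ≤ 1 := fun e _ =>
            (sum_window D hD _ m).trans (ind_le_one _)
          refine (sum_le_sum h5).trans ?_
          simp)
    exact h3.trans ((hG V A b in0).2.2.2.1 N (2 * N + 1 : ℝ) (ini N J z ω) (by positivity)).2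
  refine (sum_le_sum h2).trans ?_
  rw [sum_const, nsmul_eq_mul, mul_comm]
  exact mul_le_mul_of_nonneg_left card_Omega (by positivity)

end

section

variable {N : ℕ} {b : ℕ → ℕ} {in0 : ℕ → Prop} {J : Finset ℕ} {A : Finset (Finset V)}
  {z : ℕ → V} {Ω : Finset (Fin (N + 2) → V)}

lemma mass_and (hG : GRB_S) {p : Prop} {P : (ℕ → V) → Prop} {K : ℝ} (hK : 0 ≤ K)
    (h : p → mass N b in0 J A z Ω P ≤ K) :
    mass N b in0 J A z Ω (fun φ => p ∧ P φ) ≤ K := by
  by_cases hp : p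
  · exact (mass_mono hG (fun φ h => h.2)).trans (h hp)
  · rw [mass_false hG (fun φ h => hp h.1)]
    exact hK

/-- the all-light real triangles -/
lemma mass_L (hD : DENS_S) {B : Finset (Finset V)} {X : ℕ → Prop} {M : ℝ} {d0 : ℕ}
    {R : (Fin (N + 2) → V) → Finset V}
    (hT : Tree0 N b in0 J X) (hU : IsUniform 3 A) (hM : 1 ≤ M)
    (hS : ∀ ω ∈ Ω, Start N b in0 J X A B M d0 (ini N J z ω) (R ω)) {d Dm : ℕ} (hd : d ≤ Dm)
    {κ : ℝ} (hc : (cnt3 (fun x y w : V => ({x, y, w} : Finset V) ∈ A ∧ (lk A x y).card ≤ Dm ∧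
      (lk A x w).card ≤ Dm ∧ (lk A y w).card ≤ Dm) : ℝ) ≤ κ)
    {i : ℕ} (hiN : i < N) (hi : ¬ in0 i) :
    mass N b in0 J A z Ω (EvL A b d i) ≤ M * (Fintype.card V : ℝ) ^ N * κ := by
  classical
  have h := hD V N b in0 J X A B M d0 z Ω R hT hU hM hS i hiN hi
    (fun a p q => ind ((lk A p q).card ≤ d ∧ (lk A a p).card ≤ d ∧ (lk A a q).card ≤ d))
    (fun _ _ _ => ind_nonneg _)
  refine h.trans ?_
  refine mul_le_mul_of_nonneg_left (le_trans ?_ hc) (by positivity)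
  have h1 : ∑ p : V, ∑ q : V, ∑ a ∈ lk A p q,
      ind ((lk A p q).card ≤ d ∧ (lk A a p).card ≤ d ∧ (lk A a q).card ≤ d) ≤
      ∑ p : V, ∑ q : V, ∑ a : V, ind (({p, q, a} : Finset V) ∈ A ∧ (lk A p q).card ≤ Dm ∧
      (lk A p a).card ≤ Dm ∧ (lk A q a).card ≤ Dm) := by
    refine sum_le_sum (fun p _ => sum_le_sum (fun q _ => ?_))
    refine le_trans (sum_le_sum (fun a ha => ?_)) (sum_le_sum_of_subset_of_nonneg
      (subset_univ (lk A p q)) (fun a _ _ => ind_nonneg _))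
    refine ind_mono (fun h => ⟨mem_lk.mp ha, h.1.trans hd, ?_, ?_⟩)
    · rw [lk_comm]; exact h.2.1.trans hd
    · rw [lk_comm]; exact h.2.2.trans hd
  refine h1.trans (le_of_eq ?_)
  unfold cnt3
  rw [card_filter, Nat.cast_sum, Fintype.sum_prod_type]
  refine sum_congr rfl (fun p _ => ?_)
  rw [Fintype.sum_prod_type]
  refine sum_congr rfl (fun q _ => sum_congr rfl (fun a _ => ?_))
  unfold ind
  split_ifs <;> simp

end

end

/-- GROW: many starts give a good placement. -/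
theorem grow (hG : GRB_S) (hD : DENS_S) (h1 : ACC1_S) (h3 : ACC3_S) (h4 : ACC4_S) (hN : NOC_S)
    (hR0 : ROOT0_S) : GROW_S := by
  classical
  intro N s b in0 J X hN2 hNs hT c M₀ C₀ d0 hc
  -- normalise the constants
  obtain ⟨M, hM1, hMM⟩ : ∃ M : ℝ, 1 ≤ M ∧ M₀ ≤ M := ⟨max M₀ 1, le_max_right _ _, le_max_left _ _⟩
  obtain ⟨C, hC0, hCC⟩ : ∃ C : ℝ, 0 ≤ C ∧ C₀ ≤ C := ⟨max C₀ 0, le_max_right _ _, le_max_left _ _⟩
  have hdown : ∀ j, in0 j → E0 in0 (bs b j) := fun j hj => hT.down j (hT.inN j hj) hj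
  have hNpos : (0 : ℝ) < N := by exact_mod_cast (by omega : 0 < N)
  have hMpos : (0 : ℝ) < M := by linarith
  set κ : ℝ := (2 / (N + 1) : ℝ) ^ N * c with hκ
  have hκpos : 0 < κ := by positivity
  obtain ⟨r0, hr0⟩ := exists_nat_gt (2 * (2 * N + 1) / κ)
  obtain ⟨Q, hQ⟩ := exists_nat_gt (8 * ((2 * N + 1) * N * (1 + 2 * M * C)) / κ)
  have hQpos : (0 : ℝ) < Q := lt_of_le_of_lt (by positivity) hQ
  have hr0pos : (0 : ℝ) < r0 := lt_of_le_of_lt (by positivity) hr0
  have hQ1 : 1 ≤ Q := by exact_mod_cast hQpos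
  set D0 : ℕ := max d0 (3 * N + 3) with hD0
  set D : ℕ → ℕ := fun r => Q ^ r * D0 with hDdef
  have hDs : ∀ r, D (r + 1) = Q * D r := by
    intro r
    simp only [hDdef]
    ring
  have hDmono1 : ∀ r, D r ≤ D (r + 1) := by
    intro r
    rw [hDs]
    exact Nat.le_mul_of_pos_left _ (by omega)
  have hDmono : Monotone D := monotone_nat_of_le_succ hDmono1
  have hD00 : D 0 = D0 := by simp [hDdef]
  have hDge : ∀ r, D0 ≤ D r := fun r => by
    rw [← hD00]; exact hDmono (Nat.zero_le r)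
  have hDge1 : ∀ r, d0 ≤ D r := fun r => (le_max_left _ _).trans (hDge r)
  have hDge2 : ∀ r, 3 * N + 3 ≤ D r := fun r => (le_max_right _ _).trans (hDge r)
  have hDpos : ∀ r, 0 < D r := fun r => by have := hDge2 r; omega
  obtain ⟨n0, hn0⟩ := exists_nat_gt (max (8 * ((2 * N + 1) * (N + 2) * D r0) / κ) (M * D r0))
  refine ⟨D r0, κ / (8 * N * M), n0, by positivity, ?_⟩
  intro V _ _ A B z Ω R hn hU hcore hC hcnt hΩ hS₀
  by_contra hcon
  push Not at hcon
  set n : ℝ := (Fintype.card V : ℝ) with hndef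
  have hnn0 : (n0 : ℝ) ≤ n := by rw [hndef]; exact_mod_cast hn
  have hn1 : 8 * ((2 * N + 1) * (N + 2) * D r0) / κ < n :=
    lt_of_le_of_lt (le_max_left _ _) (hn0.trans_le hnn0)
  have hn2 : M * D r0 < n := lt_of_le_of_lt (le_max_right _ _) (hn0.trans_le hnn0)
  have hnpos : 0 < n := lt_of_le_of_lt (by positivity) hn2
  have hS : ∀ ω ∈ Ω, Start N b in0 J X A B M d0 (ini N J z ω) (R ω) := by
    intro ω hω
    have h := hS₀ ω hω
    exact ⟨h.inj, h.avoid, h.cR, h.ne, h.light, fun e he hJ => (h.heavy e he hJ).trans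
      (mul_le_mul_of_nonneg_right hMM (by positivity)), h.acc⟩
  -- the bad events of window `r`
  set Bad : ℕ → (ℕ → V) → Prop := fun r φ =>
    (∃ e ∈ range (2 * N + 1), EvW A B X b (D r) (D (r + 1)) e φ) ∨
    (∃ i ∈ range N, ¬ in0 i ∧ EvL A b (D r) i φ) ∨
    (∃ e ∈ range (2 * N + 1), ∃ v ∈ range (N + 2), (S0 in0 v ∧ v ∉ J ∧
      ¬ isEnd b (top in0 b e) v) ∧ Ev1 A b (D r) e v φ) ∨
    (∃ e ∈ range (2 * N + 1), ∃ i ∈ range N, (¬ in0 i ∧ ¬ beh b e (2 * i + 1) ∧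
      ¬ beh b e (2 * i + 2)) ∧ Ev3 A B X b (D r) (D (r + 1)) e i φ) ∨
    (∃ e ∈ range (2 * N + 1), ∃ i ∈ range N, (¬ in0 i ∧ beh b e (2 * i + 1)) ∧
      Ev4 A B X b (D r) (D (r + 1)) e i φ) ∨
    (∃ e ∈ range (2 * N + 1), ∃ i ∈ range N, (¬ in0 i ∧ beh b e (2 * i + 2)) ∧
      Ev4' A B X b (D r) (D (r + 1)) e i φ) with hBad
  -- every outcome in the event of NOC is bad
  have hpt : ∀ r < r0, ∀ ω ∈ Ω, ∀ φ, Supp A b in0 N (ini N J z ω) φ →
      NocEv N b in0 J A (R ω) φ → Bad r φ := by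
    intro r hr ω hω φ hφ hE
    by_contra hb
    simp only [hBad, not_or, not_exists, not_and, mem_range] at hb
    obtain ⟨b1, b2, b3, b4, b5, b6⟩ := hb
    refine hcon ω hω φ (D r) (fun v hv => Supp.eqS0 hφ hv) ?_
    refine good_of hR0 hT hcore (hS ω hω) hφ (D := D (r + 1)) (hDge1 r) (hDge2 r) (hDmono1 r)
      hMpos.le ?_ hE ?_ ?_ ?_ ?_ ?_ ?_
    · have h5 : (D r : ℝ) ≤ (D r0 : ℝ) := by exact_mod_cast hDmono hr.le
      have h6 := mul_le_mul_of_nonneg_left h5 hMpos.le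
      linarith
    · intro e he; exact b1 e (by omega)
    · intro i hi hi0; exact b2 i hi hi0
    · intro e he v hv hvJ hve
      refine b3 e (by omega) v ?_ ⟨hv, hvJ, hve⟩
      rcases hv with hv | ⟨i, hi, hv⟩
      · omega
      · have := hT.inN i hi
        omega
    · intro e he i hi hi0 h5 h6; exact b4 e (by omega) i hi ⟨hi0, h5, h6⟩
    · intro e he i hi hi0 h5; exact b5 e (by omega) i hi ⟨hi0, h5⟩
    · intro e he i hi hi0 h5; exact b6 e (by omega) i hi ⟨hi0, h5⟩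
  -- hence its mass is large
  have hlow : ∀ r < r0, κ * n ^ (N + 2) ≤ mass N b in0 J A z Ω (Bad r) := by
    intro r hr
    have h5 : ((2 / (N + 1) : ℝ) ^ N) * (Ω.card : ℝ) ≤ mass N b in0 J A z Ω (Bad r) := by
      unfold mass
      rw [mul_comm, ← nsmul_eq_mul, ← sum_const]
      refine sum_le_sum (fun ω hω => ?_)
      refine (hN V N s b in0 J X A B M d0 (ini N J z ω) (R ω) hN2 hNs hT hU hcore (hS ω hω)).trans
        ?_
      refine (hG V A b in0).1 N _ _ _ (fun φ hφ => ind_mono (fun h => ?_))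
      exact hpt r hr ω hω φ hφ h
    refine le_trans ?_ h5
    rw [hκ, mul_assoc]
    exact mul_le_mul_of_nonneg_left hΩ (by positivity)
  -- upper bound
  have hQr : ∀ r, ((D r : ℕ) : ℝ) / ((D (r + 1) : ℕ) : ℝ) = 1 / Q := by
    intro r
    rw [hDs]
    push_cast
    have : ((D r : ℕ) : ℝ) ≠ 0 := by
      have := hDpos r
      positivity
    field_simp
  have hn2' : ∀ x : ℝ, x * (n ^ N * n ^ 2) = x * n ^ (N + 2) := fun x => by ring
  have hup : ∀ r < r0, mass N b in0 J A z Ω (Bad r) ≤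
      mass N b in0 J A z Ω (fun φ => ∃ e ∈ range (2 * N + 1),
        EvW A B X b (D r) (D (r + 1)) e φ) + κ / 2 * n ^ (N + 2) := by
    intro r hr
    have hDr : D r ≤ D r0 := hDmono hr.le
    -- L
    have mL : mass N b in0 J A z Ω (fun φ => ∃ i ∈ range N, ¬ in0 i ∧ EvL A b (D r) i φ) ≤
        κ / 8 * n ^ (N + 2) := by
      have h5 : mass N b in0 J A z Ω (fun φ => ∃ i ∈ range N, ¬ in0 i ∧ EvL A b (D r) i φ) ≤
          (range N).card * (M * n ^ N * (κ / (8 * N * M) * n ^ 2)) := by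
        refine mass_exists hG (range N) _ _ (fun i hi => ?_)
        refine mass_and hG (by positivity) (fun hi0 => ?_)
        exact mass_L hD hT hU hM1 hS hDr hcnt (mem_range.mp hi) hi0
      refine h5.trans (le_of_eq ?_)
      rw [card_range]
      field_simp
      ring
    -- 1
    have m1 : mass N b in0 J A z Ω (fun φ => ∃ e ∈ range (2 * N + 1), ∃ v ∈ range (N + 2),
        (S0 in0 v ∧ v ∉ J ∧ ¬ isEnd b (top in0 b e) v) ∧ Ev1 A b (D r) e v φ) ≤
        κ / 8 * n ^ (N + 2) := by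
      have h5 : mass N b in0 J A z Ω (fun φ => ∃ e ∈ range (2 * N + 1), ∃ v ∈ range (N + 2),
        (S0 in0 v ∧ v ∉ J ∧ ¬ isEnd b (top in0 b e) v) ∧ Ev1 A b (D r) e v φ) ≤
          (range (2 * N + 1)).card * ((range (N + 2)).card * (D r * n ^ (N + 1))) := by
        refine mass_exists hG _ _ _ (fun e he => mass_exists hG _ _ _ (fun v hv => ?_))
        refine mass_and hG (by positivity) (fun hv0 => ?_)
        exact h1 V N b in0 J X A z Ω hT e (by have := mem_range.mp he; omega) v hv0.1 hv0.2.1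
          hv0.2.2 (D r)
      refine h5.trans ?_
      rw [card_range, card_range]
      rw [div_lt_iff₀ hκpos] at hn1
      have h6 : (D r : ℝ) ≤ (D r0 : ℝ) := by exact_mod_cast hDr
      have h7 : ((2 * N + 1 : ℕ) : ℝ) * (((N + 2 : ℕ) : ℝ) * ((D r : ℝ) * n ^ (N + 1))) ≤
          ((2 * N + 1) * (N + 2) * D r0) * n ^ (N + 1) := by
        push_cast
        have h8 : ((2 * N + 1) * (N + 2) : ℝ) * (D r : ℝ) ≤ ((2 * N + 1) * (N + 2) : ℝ) * D r0 :=
          mul_le_mul_of_nonneg_left h6 (by positivity)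
        have h9 := mul_le_mul_of_nonneg_right h8 (by positivity : (0 : ℝ) ≤ n ^ (N + 1))
        calc _ = ((2 * N + 1) * (N + 2) : ℝ) * (D r : ℝ) * n ^ (N + 1) := by ring
          _ ≤ _ := h9
      refine h7.trans ?_
      have h10 : ((2 * N + 1) * (N + 2) * D r0 : ℝ) ≤ κ / 8 * n := by linarith
      have h11 := mul_le_mul_of_nonneg_right h10 (by positivity : (0 : ℝ) ≤ n ^ (N + 1))
      calc _ ≤ κ / 8 * n * n ^ (N + 1) := h11
        _ = _ := by ring
    -- constants with Q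
    have hq1 : ((2 * N + 1) * N : ℝ) * (1 / Q) ≤ κ / 8 := by
      rw [div_lt_iff₀ hκpos] at hQ
      have h5 : ((2 * N + 1) * N : ℝ) ≤ (2 * N + 1) * N * (1 + 2 * M * C) := by
        have : (0 : ℝ) ≤ (2 * N + 1) * N * (2 * M * C) := by positivity
        nlinarith
      rw [mul_one_div, div_le_iff₀ hQpos]
      linarith
    have hq2 : ((2 * N + 1) * N : ℝ) * (M * C / Q) ≤ κ / 16 := by
      rw [div_lt_iff₀ hκpos] at hQ
      have h5 : ((2 * N + 1) * N : ℝ) * (2 * M * C) ≤ (2 * N + 1) * N * (1 + 2 * M * C) := by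
        have : (0 : ℝ) ≤ (2 * N + 1) * N := by positivity
        nlinarith
      rw [mul_div_assoc', div_le_iff₀ hQpos]
      linarith
    -- 3
    have m3 : mass N b in0 J A z Ω (fun φ => ∃ e ∈ range (2 * N + 1), ∃ i ∈ range N,
        (¬ in0 i ∧ ¬ beh b e (2 * i + 1) ∧ ¬ beh b e (2 * i + 2)) ∧
        Ev3 A B X b (D r) (D (r + 1)) e i φ) ≤ κ / 8 * n ^ (N + 2) := by
      have h5 : mass N b in0 J A z Ω (fun φ => ∃ e ∈ range (2 * N + 1), ∃ i ∈ range N,
        (¬ in0 i ∧ ¬ beh b e (2 * i + 1) ∧ ¬ beh b e (2 * i + 2)) ∧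
        Ev3 A B X b (D r) (D (r + 1)) e i φ) ≤
          (range (2 * N + 1)).card * ((range N).card * (n ^ (N + 2) * (1 / Q))) := by
        refine mass_exists hG _ _ _ (fun e he => mass_exists hG _ _ _ (fun i hi => ?_))
        refine mass_and hG (by positivity) (fun hi0 => ?_)
        have h6 : ∀ ω ∈ Ω, gr A b in0 N (fun φ => ind (Ev3 A B X b (D r) (D (r + 1)) e i φ))
            (ini N J z ω) ≤ 1 / Q := by
          intro ω _
          have := h3 V A N b in0 hdown (Lfe A B X e) (D r) (D (r + 1)) (hDpos _) e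
            (by have := mem_range.mp he; omega) i (mem_range.mp hi) hi0.1 hi0.2.1 hi0.2.2
            (ini N J z ω)
          rw [hQr] at this
          exact this
        unfold mass
        refine (sum_le_sum h6).trans ?_
        rw [sum_const, nsmul_eq_mul]
        exact mul_le_mul_of_nonneg_right card_Omega (by positivity)
      refine h5.trans ?_
      rw [card_range, card_range]
      push_cast
      have h7 := mul_le_mul_of_nonneg_right hq1 (by positivity : (0 : ℝ) ≤ n ^ (N + 2))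
      calc _ = ((2 * N + 1) * N : ℝ) * (1 / Q) * n ^ (N + 2) := by ring
        _ ≤ _ := h7
    -- 4
    have hcn : ((D r : ℕ) : ℝ) * cnt2 (fun x y : V => D (r + 1) < (lk A x y).card) ≤
        C / Q * n ^ 2 := by
      have h5 := hC (D (r + 1))
      rw [hDs] at h5 ⊢
      push_cast at h5
      have h6 : C₀ * n ^ 2 ≤ C * n ^ 2 := mul_le_mul_of_nonneg_right hCC (by positivity)
      rw [div_mul_eq_mul_div, le_div_iff₀ hQpos]
      calc _ = (Q : ℝ) * (D r : ℝ) * cnt2 (fun x y : V => Q * D r < (lk A x y).card) := by ring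
        _ ≤ C₀ * n ^ 2 := h5
        _ ≤ _ := h6
    have hcn' : M * n ^ N * (((D r : ℕ) : ℝ) *
        cnt2 (fun x y : V => D (r + 1) < (lk A x y).card)) ≤ M * C / Q * n ^ (N + 2) := by
      have h5 := mul_le_mul_of_nonneg_left hcn (by positivity : (0 : ℝ) ≤ M * n ^ N)
      calc _ ≤ M * n ^ N * (C / Q * n ^ 2) := h5
        _ = _ := by ring
    have m4 : mass N b in0 J A z Ω (fun φ => ∃ e ∈ range (2 * N + 1), ∃ i ∈ range N,
        (¬ in0 i ∧ beh b e (2 * i + 1)) ∧ Ev4 A B X b (D r) (D (r + 1)) e i φ) ≤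
        κ / 16 * n ^ (N + 2) := by
      have h5 : mass N b in0 J A z Ω (fun φ => ∃ e ∈ range (2 * N + 1), ∃ i ∈ range N,
        (¬ in0 i ∧ beh b e (2 * i + 1)) ∧ Ev4 A B X b (D r) (D (r + 1)) e i φ) ≤
          (range (2 * N + 1)).card * ((range N).card * (M * C / Q * n ^ (N + 2))) := by
        refine mass_exists hG _ _ _ (fun e he => mass_exists hG _ _ _ (fun i hi => ?_))
        refine mass_and hG (by positivity) (fun hi0 => ?_)
        have h6 := (h4 V N b in0 J X A B M d0 z Ω R hT hU hM1 hS (Lfe A B X e) (D r) (D (r + 1)) e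
            (by have := mem_range.mp he; omega) i (mem_range.mp hi) hi0.1).1 hi0.2
        exact h6.trans hcn'
      refine h5.trans ?_
      rw [card_range, card_range]
      push_cast
      have h7 := mul_le_mul_of_nonneg_right hq2 (by positivity : (0 : ℝ) ≤ n ^ (N + 2))
      calc _ = ((2 * N + 1) * N : ℝ) * (M * C / Q) * n ^ (N + 2) := by ring
        _ ≤ _ := h7
    have m4' : mass N b in0 J A z Ω (fun φ => ∃ e ∈ range (2 * N + 1), ∃ i ∈ range N,
        (¬ in0 i ∧ beh b e (2 * i + 2)) ∧ Ev4' A B X b (D r) (D (r + 1)) e i φ) ≤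
        κ / 16 * n ^ (N + 2) := by
      have h5 : mass N b in0 J A z Ω (fun φ => ∃ e ∈ range (2 * N + 1), ∃ i ∈ range N,
        (¬ in0 i ∧ beh b e (2 * i + 2)) ∧ Ev4' A B X b (D r) (D (r + 1)) e i φ) ≤
          (range (2 * N + 1)).card * ((range N).card * (M * C / Q * n ^ (N + 2))) := by
        refine mass_exists hG _ _ _ (fun e he => mass_exists hG _ _ _ (fun i hi => ?_))
        refine mass_and hG (by positivity) (fun hi0 => ?_)
        have h6 := (h4 V N b in0 J X A B M d0 z Ω R hT hU hM1 hS (Lfe A B X e) (D r) (D (r + 1)) e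
            (by have := mem_range.mp he; omega) i (mem_range.mp hi) hi0.1).2 hi0.2
        exact h6.trans hcn'
      refine h5.trans ?_
      rw [card_range, card_range]
      push_cast
      have h7 := mul_le_mul_of_nonneg_right hq2 (by positivity : (0 : ℝ) ≤ n ^ (N + 2))
      calc _ = ((2 * N + 1) * N : ℝ) * (M * C / Q) * n ^ (N + 2) := by ring
        _ ≤ _ := h7
    refine (mass_or hG _ _).trans ?_
    have t1 := mass_or (N := N) (b := b) (in0 := in0) (J := J) (A := A) (z := z) (Ω := Ω) hG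
      (fun φ => ∃ i ∈ range N, ¬ in0 i ∧ EvL A b (D r) i φ)
      (fun φ => (∃ e ∈ range (2 * N + 1), ∃ v ∈ range (N + 2), (S0 in0 v ∧ v ∉ J ∧
        ¬ isEnd b (top in0 b e) v) ∧ Ev1 A b (D r) e v φ) ∨
        (∃ e ∈ range (2 * N + 1), ∃ i ∈ range N, (¬ in0 i ∧ ¬ beh b e (2 * i + 1) ∧
        ¬ beh b e (2 * i + 2)) ∧ Ev3 A B X b (D r) (D (r + 1)) e i φ) ∨
        (∃ e ∈ range (2 * N + 1), ∃ i ∈ range N, (¬ in0 i ∧ beh b e (2 * i + 1)) ∧
        Ev4 A B X b (D r) (D (r + 1)) e i φ) ∨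
        (∃ e ∈ range (2 * N + 1), ∃ i ∈ range N, (¬ in0 i ∧ beh b e (2 * i + 2)) ∧
        Ev4' A B X b (D r) (D (r + 1)) e i φ))
    have t2 := mass_or (N := N) (b := b) (in0 := in0) (J := J) (A := A) (z := z) (Ω := Ω) hG
      (fun φ => (∃ e ∈ range (2 * N + 1), ∃ v ∈ range (N + 2), (S0 in0 v ∧ v ∉ J ∧
        ¬ isEnd b (top in0 b e) v) ∧ Ev1 A b (D r) e v φ))
      (fun φ => (∃ e ∈ range (2 * N + 1), ∃ i ∈ range N, (¬ in0 i ∧ ¬ beh b e (2 * i + 1) ∧
        ¬ beh b e (2 * i + 2)) ∧ Ev3 A B X b (D r) (D (r + 1)) e i φ) ∨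
        (∃ e ∈ range (2 * N + 1), ∃ i ∈ range N, (¬ in0 i ∧ beh b e (2 * i + 1)) ∧
        Ev4 A B X b (D r) (D (r + 1)) e i φ) ∨
        (∃ e ∈ range (2 * N + 1), ∃ i ∈ range N, (¬ in0 i ∧ beh b e (2 * i + 2)) ∧
        Ev4' A B X b (D r) (D (r + 1)) e i φ))
    have t3 := mass_or (N := N) (b := b) (in0 := in0) (J := J) (A := A) (z := z) (Ω := Ω) hG
      (fun φ => (∃ e ∈ range (2 * N + 1), ∃ i ∈ range N, (¬ in0 i ∧ ¬ beh b e (2 * i + 1) ∧
        ¬ beh b e (2 * i + 2)) ∧ Ev3 A B X b (D r) (D (r + 1)) e i φ))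
      (fun φ => (∃ e ∈ range (2 * N + 1), ∃ i ∈ range N, (¬ in0 i ∧ beh b e (2 * i + 1)) ∧
        Ev4 A B X b (D r) (D (r + 1)) e i φ) ∨
        (∃ e ∈ range (2 * N + 1), ∃ i ∈ range N, (¬ in0 i ∧ beh b e (2 * i + 2)) ∧
        Ev4' A B X b (D r) (D (r + 1)) e i φ))
    have t4 := mass_or (N := N) (b := b) (in0 := in0) (J := J) (A := A) (z := z) (Ω := Ω) hG
      (fun φ => (∃ e ∈ range (2 * N + 1), ∃ i ∈ range N, (¬ in0 i ∧ beh b e (2 * i + 1)) ∧
        Ev4 A B X b (D r) (D (r + 1)) e i φ))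
      (fun φ => (∃ e ∈ range (2 * N + 1), ∃ i ∈ range N, (¬ in0 i ∧ beh b e (2 * i + 2)) ∧
        Ev4' A B X b (D r) (D (r + 1)) e i φ))
    have t5 : κ / 2 * n ^ (N + 2) = κ / 8 * n ^ (N + 2) + (κ / 8 * n ^ (N + 2) +
        (κ / 8 * n ^ (N + 2) + (κ / 16 * n ^ (N + 2) + κ / 16 * n ^ (N + 2)))) := by ring
    linarith
  -- the windows
  have hwin := mass_window (N := N) (b := b) (in0 := in0) (J := J) (A := A) (z := z) (Ω := Ω) hG
    B X D hDmono1 r0
  have hlow2 : (r0 : ℝ) * (κ / 2 * n ^ (N + 2)) ≤ ∑ r ∈ range r0,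
      mass N b in0 J A z Ω (fun φ => ∃ e ∈ range (2 * N + 1),
      EvW A B X b (D r) (D (r + 1)) e φ) := by
    have h5 : (r0 : ℝ) * (κ / 2 * n ^ (N + 2)) = ∑ _r ∈ range r0, κ / 2 * n ^ (N + 2) := by
      rw [sum_const, card_range, nsmul_eq_mul]
    rw [h5]
    refine sum_le_sum (fun r hr => ?_)
    have h6 := hlow r (mem_range.mp hr)
    have h7 := hup r (mem_range.mp hr)
    linarith
  have hfin : (r0 : ℝ) * (κ / 2 * n ^ (N + 2)) ≤ (2 * N + 1) * n ^ (N + 2) := hlow2.trans hwin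
  have hpow : 0 < n ^ (N + 2) := by positivity
  rw [div_lt_iff₀ hκpos] at hr0
  have h8 : (r0 : ℝ) * (κ / 2) ≤ 2 * N + 1 := by
    by_contra h
    push Not at h
    have := mul_lt_mul_of_pos_right h hpow
    linarith
  linarith

end MP_182bbb_co.TT.H12
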